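import Pool.Agent.Lev.J_schottky
import Pool.Agent.Y298.EX.Stm

/-!
# Schottky for functions omitting a constant and a moving value (job EX-SHO)
-/

set_option autoImplicit false

open Set Filter Metric MeasureTheory Topology

namespace Pool.Agent.Y79.EX

theorem t : Pool.Agent.Y298.EX.S_SHO := by
  intro δ hδ
  obtain ⟨C', hC'⟩ := Pool.Agent.Lev.J_schottky.main ((3 + δ / 8) / (δ / 2))
  set D : ℝ := max C' 1 with hD
  have hD1 : 1 ≤ D := le_max_right _ _
  have hDC : C' ≤ D := le_max_left _ _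
  refine ⟨4 * (1 + 4 * D), by positivity, ?_⟩
  intro F ζ w κ ζ₀ ρ hρ hF hζ h1 h2 h3 h4 h5 h6
  have hδ2 : δ ≤ 2 := h1.trans h2
  -- the denominator
  have hlow : ∀ x ∈ ball w ρ, δ / 2 ≤ ‖ζ x - κ‖ := by
    intro x hx
    have e : ζ₀ = (ζ x - κ) + κ - (ζ x - ζ₀) := by ring
    have h7 : ‖ζ₀‖ ≤ ‖ζ x - κ‖ + ‖κ‖ + ‖ζ x - ζ₀‖ := by
      calc ‖ζ₀‖ = ‖(ζ x - κ) + κ - (ζ x - ζ₀)‖ := by rw [← e]
        _ ≤ ‖(ζ x - κ) + κ‖ + ‖ζ x - ζ₀‖ := norm_sub_le _ _
        _ ≤ ‖ζ x - κ‖ + ‖κ‖ + ‖ζ x - ζ₀‖ := by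
          have := norm_add_le (ζ x - κ) κ
          linarith
    have := h4 x hx
    linarith
  have hup : ∀ x ∈ ball w ρ, ‖ζ x - κ‖ ≤ 4 := by
    intro x hx
    have e : ζ x - κ = (ζ x - ζ₀) + (ζ₀ - κ) := by ring
    have h7 : ‖ζ x - κ‖ ≤ ‖ζ x - ζ₀‖ + ‖ζ₀ - κ‖ := by
      rw [e]; exact norm_add_le _ _
    have h8 := norm_sub_le ζ₀ κ
    have := h4 x hx
    linarith
  have hne : ∀ x ∈ ball w ρ, ζ x - κ ≠ 0 := by
    intro x hx h7
    have := hlow x hx
    rw [h7, norm_zero] at this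
    linarith
  set H : ℂ → ℂ := fun x => (F x - κ) / (ζ x - κ) with hH
  have hHd : DifferentiableOn ℂ H (ball w ρ) :=
    (hF.sub_const κ).div (hζ.sub_const κ) hne
  have hH01 : ∀ z ∈ ball w ρ, H z ≠ 0 ∧ H z ≠ 1 := by
    intro z hz
    refine ⟨div_ne_zero (sub_ne_zero.2 (h6 z hz).1) (hne z hz), ?_⟩
    intro h7
    rw [hH] at h7
    simp only at h7
    rw [div_eq_one_iff_eq (hne z hz)] at h7
    exact (h6 z hz).2 (by linear_combination h7)
  have hww : w ∈ ball w ρ := mem_ball_self hρ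
  have hHw : ‖H w‖ ≤ (3 + δ / 8) / (δ / 2) := by
    rw [hH]
    simp only [norm_div]
    have h7 : ‖F w - κ‖ ≤ 3 + δ / 8 := by
      have := norm_sub_le (F w) κ
      linarith
    exact div_le_div₀ (by positivity) h7 (by positivity) (hlow w hww)
  have h8 := hC' H w ρ hρ hHd hH01 hHw
  have h9 : ∀ x ∈ ball w (ρ / 2), ‖F x‖ ≤ 1 + 4 * D := by
    intro x hx
    have hx' : x ∈ ball w ρ := ball_subset_ball (by linarith) hx
    have h10 := h8 x hx
    have e : F x = κ + H x * (ζ x - κ) := by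
      rw [hH]; simp only
      rw [div_mul_cancel₀ _ (hne x hx')]; ring
    have h11 : ‖F x‖ ≤ ‖κ‖ + ‖H x‖ * ‖ζ x - κ‖ := by
      rw [e, ← norm_mul]; exact norm_add_le _ _
    have h12 : ‖H x‖ * ‖ζ x - κ‖ ≤ D * 4 :=
      mul_le_mul (h10.trans hDC) (hup x hx') (norm_nonneg _) (by linarith)
    linarith
  have h13 : ‖deriv F w‖ ≤ (1 + 4 * D) / (ρ / 4) := by
    apply Complex.norm_deriv_le_of_forall_mem_sphere_norm_le (by positivity)
    · apply DifferentiableOn.diffContOnCl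
      rw [closure_ball w (by positivity)]
      exact hF.mono (closedBall_subset_ball (by linarith))
    · intro z hz
      apply h9
      rw [mem_sphere] at hz
      rw [mem_ball, hz]
      linarith
  rw [div_div_eq_mul_div, le_div_iff₀ hρ] at h13
  linarith

end Pool.Agent.Y79.EX
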